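import Mathlib

set_option autoImplicit false

namespace Pool.Agent.H.MP_c46510_an
open scoped ENNReal InnerProductSpace

variable {H : Type} [NormedAddCommGroup H] [InnerProductSpace ℂ H] [CompleteSpace H]

theorem inv1 (x : H →L[ℂ] H) (hx : 0 ≤ x) :
    ∃ r : H →L[ℂ] H, 0 ≤ r ∧ (1 + x) * r = 1 ∧ r * (1 + x) = 1 := by
  have h1 : (1 : H →L[ℂ] H) ≤ 1 + x := le_add_of_nonneg_right hx
  obtain ⟨u, hu⟩ : IsUnit (1 + x) := CStarAlgebra.isUnit_of_le 1 h1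
  have a1 : (1 + x) * (↑u⁻¹ : H →L[ℂ] H) = 1 := by rw [← hu]; simp
  have a2 : (↑u⁻¹ : H →L[ℂ] H) * (1 + x) = 1 := by rw [← hu]; simp
  refine ⟨↑u⁻¹, ?_, a1, a2⟩
  have h0 : (0 : H →L[ℂ] H) ≤ 1 + x := zero_le_one.trans h1
  have h2 := star_left_conjugate_nonneg h0 (↑u⁻¹ : H →L[ℂ] H)
  have h3 : star (↑u⁻¹ : H →L[ℂ] H) * (1 + x) = 1 := by
    have := congrArg star a1
    rwa [star_mul, star_one, h0.isSelfAdjoint.star_eq] at this
  rwa [h3, one_mul] at h2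

theorem comm_inv {a r t : H →L[ℂ] H} (h1 : a * r = 1) (h2 : r * a = 1) (h : Commute t a) :
    Commute t r := by
  have : r * (a * t) * r = r * (t * a) * r := by rw [h.eq]
  rw [← mul_assoc, h2, one_mul, mul_assoc, mul_assoc, h1, mul_one] at this
  exact this

theorem comm_sqrt {a t : H →L[ℂ] H} (h : Commute t a) : Commute t (CFC.sqrt a) :=
  (h.symm.cfcₙ_nnreal _).symm

theorem gmean {a b a' b' : H →L[ℂ] H} (a1 : a * a' = 1) (a2 : a' * a = 1) (b1 : b * b' = 1)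
    (b2 : b' * b = 1) (ha : 0 ≤ a') (hb : 0 ≤ b') (hs : IsSelfAdjoint a) :
    ∃ X : H →L[ℂ] H, IsSelfAdjoint X ∧ X * (b - a) * X = a' - b' ∧
      ∀ t, Commute t a → Commute t b → Commute t X := by
  set r := CFC.sqrt a' with hr
  have r0 : 0 ≤ r := CFC.sqrt_nonneg _
  have rr : r * r = a' := CFC.sqrt_mul_sqrt_self a' ha
  have ar : Commute a r := comm_sqrt (comm_inv a1 a2 (Commute.refl a))
  set s := a * r with hs'
  have rs : r * s = 1 := by rw [hs', ← mul_assoc, ← ar.eq, mul_assoc, rr, a1]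
  have sr : s * r = 1 := by rw [hs', mul_assoc, rr, a1]
  have ss : star s = s := by rw [hs', star_mul, hs.star_eq, r0.isSelfAdjoint.star_eq, ar.eq]
  have hm : 0 ≤ s * b' * s := by
    have := star_left_conjugate_nonneg hb s
    rwa [ss] at this
  set n := CFC.sqrt (s * b' * s) with hn
  have n0 : 0 ≤ n := CFC.sqrt_nonneg _
  have nn : n * n = s * b' * s := CFC.sqrt_mul_sqrt_self _ hm
  have e1 : (r * n * r) * a * (r * n * r) = b' := by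
    have : (r * n * r) * a * (r * n * r) = r * (n * (r * (a * r)) * n) * r := by
      simp only [mul_assoc]
    rw [this, ← hs', rs, mul_one, nn]
    have : r * (s * b' * s) * r = (r * s) * b' * (s * r) := by simp only [mul_assoc]
    rw [this, rs, sr, one_mul, mul_one]
  set X := r * n * r with hX
  have e2 : X * b * X = a' := by
    have c1 : X * (a * X * b) = 1 := by rw [← b2, ← e1]; simp only [mul_assoc]
    have c2 : (b * X * a) * X = 1 := by rw [← b1, ← e1]; simp only [mul_assoc]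
    have c3 : b * X * a = a * X * b := left_inv_eq_right_inv c2 c1
    have c4 : X * b * X * a = 1 := by rw [← c1, ← c3]; simp only [mul_assoc]
    rw [← mul_one (X * b * X), ← a1, ← mul_assoc, c4, one_mul]
  refine ⟨X, ?_, by rw [mul_sub, sub_mul, e1, e2], fun t ta tb => ?_⟩
  · show star X = X
    rw [hX, star_mul, star_mul, r0.isSelfAdjoint.star_eq, n0.isSelfAdjoint.star_eq, mul_assoc]
  · have tr : Commute t r := comm_sqrt (comm_inv a1 a2 ta)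
    have ts : Commute t s := ta.mul_right tr
    have tn : Commute t n := comm_sqrt ((ts.mul_right (comm_inv b1 b2 tb)).mul_right ts)
    exact (tr.mul_right tn).mul_right tr

noncomputable def Q (A : H →L[ℂ] H) (f : H) : ℝ := (⟪A f, f⟫_ℂ).re

theorem Q_nonneg {A : H →L[ℂ] H} (h : 0 ≤ A) (f : H) : 0 ≤ Q A f :=
  ((ContinuousLinearMap.nonneg_iff_isPositive A).mp h).re_inner_nonneg_left f

theorem sa {A : H →L[ℂ] H} (h : IsSelfAdjoint A) (x y : H) : ⟪A x, y⟫_ℂ = ⟪x, A y⟫_ℂ :=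
  h.isSymmetric x y

theorem Q_ext {A B : H →L[ℂ] H} (ha : IsSelfAdjoint A) (hb : IsSelfAdjoint B)
    (h : ∀ f, Q A f = Q B f) : A = B := by
  have := (ext_inner_map (A : H →ₗ[ℂ] H) (B : H →ₗ[ℂ] H)).mp fun x => by
    have e1 := ha.isSymmetric.coe_re_inner_apply_self x
    have e2 := hb.isSymmetric.coe_re_inner_apply_self x
    rw [← e1, ← e2]
    exact congrArg _ (h x)
  exact ContinuousLinearMap.coe_injective this

theorem frame {J : Type} (x : J → H) (K : ℝ) (hK : 0 ≤ K)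
    (h : ∀ f, ∑' j, ‖⟪x j, f⟫_ℂ‖ₑ ^ 2 ≤ ENNReal.ofReal (K ^ 2 * ‖f‖ ^ 2)) :
    ∃ A : H →L[ℂ] H, 0 ≤ A ∧ ∀ f, ENNReal.ofReal (Q A f) = ∑' j, ‖⟪x j, f⟫_ℂ‖ₑ ^ 2 := by
  have e : ∀ z : ℂ, ‖z‖ₑ ^ 2 = ENNReal.ofReal (‖z‖ ^ 2) := fun z => by
    rw [ENNReal.ofReal_pow (norm_nonneg _), ofReal_norm]
  have hs : ∀ f, Summable fun j => ‖⟪x j, f⟫_ℂ‖ ^ 2 := fun f => by
    have := ENNReal.summable_toReal ((h f).trans_lt ENNReal.ofReal_lt_top).ne
    simpa using this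
  have he : ∀ f, ENNReal.ofReal (∑' j, ‖⟪x j, f⟫_ℂ‖ ^ 2) = ∑' j, ‖⟪x j, f⟫_ℂ‖ₑ ^ 2 := fun f => by
    rw [ENNReal.ofReal_tsum_of_nonneg (fun _ => by positivity) (hs f)]
    simp only [e]
  have hm : ∀ f, Memℓp (fun j => ⟪x j, f⟫_ℂ) 2 := fun f =>
    memℓp_gen (by simpa using hs f)
  let L : H →ₗ[ℂ] lp (fun _ : J => ℂ) 2 :=
    { toFun := fun f => ⟨fun j => ⟪x j, f⟫_ℂ, hm f⟩
      map_add' := fun f g => by ext j; exact inner_add_right _ _ _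
      map_smul' := fun c f => by ext j; simp }
  have hn : ∀ f, ‖L f‖ ^ 2 = ∑' j, ‖⟪x j, f⟫_ℂ‖ ^ 2 := fun f => by
    have := lp.norm_rpow_eq_tsum (p := 2) (by norm_num) (L f)
    simp only [ENNReal.toReal_ofNat, Real.rpow_ofNat] at this
    exact this
  have hb : ∀ f, ‖L f‖ ≤ K * ‖f‖ := fun f => by
    have h1 := h f
    rw [← he, ENNReal.ofReal_le_ofReal_iff (by positivity), ← hn, ← mul_pow] at h1
    exact (pow_le_pow_iff_left₀ (norm_nonneg _) (by positivity) two_ne_zero).mp h1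
  let M := L.mkContinuous K hb
  refine ⟨ContinuousLinearMap.adjoint M ∘L M, ?_, fun f => ?_⟩
  · exact (ContinuousLinearMap.nonneg_iff_isPositive _).mpr
      (ContinuousLinearMap.isPositive_adjoint_comp_self M)
  · rw [← he, ← hn]
    congr 1
    simp only [Q, ContinuousLinearMap.comp_apply, ContinuousLinearMap.adjoint_inner_left]
    exact inner_self_eq_norm_sq (𝕜 := ℂ) (L f)

structure Sh (T : ℤ → H →L[ℂ] H) : Prop where
  zero : ∀ f, T 0 f = f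
  add : ∀ m n f, T m (T n f) = T (m + n) f
  inn : ∀ m x y, ⟪T m x, T m y⟫_ℂ = ⟪x, y⟫_ℂ

theorem Sh.adj {T : ℤ → H →L[ℂ] H} (h : Sh T) (m : ℤ) (x y : H) :
    ⟪T m x, y⟫_ℂ = ⟪x, T (-m) y⟫_ℂ := by
  rw [← h.inn m x, h.add, add_neg_cancel, h.zero]

def Bes {I : Type} (T : ℤ → H →L[ℂ] H) (e : I → H) : Prop :=
  ∀ f, ∑' p : ℤ × I, ‖⟪T p.1 (e p.2), f⟫_ℂ‖ₑ ^ 2 ≤ ‖f‖ₑ ^ 2

def Gen {I : Type} (T : ℤ → H →L[ℂ] H) (e : I → H) : Prop :=
  ∀ f, ∑' p : ℤ × I, ‖⟪T p.1 (e p.2), f⟫_ℂ‖ₑ ^ 2 = ‖f‖ₑ ^ 2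

theorem en (x y : H) : ‖⟪x, y⟫_ℂ‖ₑ = ‖⟪y, x⟫_ℂ‖ₑ := by
  rw [← ofReal_norm, ← ofReal_norm, norm_inner_symm]

theorem swap {I J : Type} {T : ℤ → H →L[ℂ] H} (hT : Sh T) (e : I → H) (w : J → H) :
    ∑' i, ∑' p : ℤ × J, ‖⟪T p.1 (w p.2), e i⟫_ℂ‖ₑ ^ 2 =
      ∑' j, ∑' p : ℤ × I, ‖⟪T p.1 (e p.2), w j⟫_ℂ‖ₑ ^ 2 := by
  simp only [ENNReal.tsum_prod']
  have : ∀ j, ∑' k : ℤ, ∑' i, ‖⟪T k (e i), w j⟫_ℂ‖ₑ ^ 2 =
      ∑' i, ∑' k : ℤ, ‖⟪T k (w j), e i⟫_ℂ‖ₑ ^ 2 := by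
    intro j
    rw [ENNReal.tsum_comm]
    refine tsum_congr fun i => ?_
    rw [← (Equiv.neg ℤ).tsum_eq]
    refine tsum_congr fun k => ?_
    rw [hT.adj, en]
    simp
  simp only [this]
  rw [ENNReal.tsum_comm (f := fun j i => ∑' k : ℤ, ‖⟪T k (w j), e i⟫_ℂ‖ₑ ^ 2)]
  exact tsum_congr fun i => ENNReal.tsum_comm

theorem cmp {I J : Type} {T : ℤ → H →L[ℂ] H} (hT : Sh T) {Y : H →L[ℂ] H} (hY : IsSelfAdjoint Y)
    (hc : ∀ k, Commute (T k) Y) {u : J → H} {e : I → H} (hu : Bes T u) (he : Gen T e) :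
    ∑' j, ‖Y (u j)‖ₑ ^ 2 ≤ ∑' i, ‖Y (e i)‖ₑ ^ 2 := by
  have h1 : ∀ j, ‖Y (u j)‖ₑ ^ 2 = ∑' p : ℤ × I, ‖⟪T p.1 (Y (e p.2)), u j⟫_ℂ‖ₑ ^ 2 := by
    intro j
    rw [← he]
    refine tsum_congr fun p => ?_
    rw [← sa hY]
    have := congrArg (fun Z : H →L[ℂ] H => Z (e p.2)) (hc p.1).eq
    simp only [ContinuousLinearMap.mul_apply] at this
    rw [this]
  simp only [h1]
  rw [← swap hT (fun i => Y (e i)) u]
  exact ENNReal.tsum_le_tsum fun i => hu _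

theorem nsq (x : H) : ‖x‖ₑ ^ 2 = ENNReal.ofReal (‖x‖ ^ 2) := by
  rw [ENNReal.ofReal_pow (norm_nonneg _), ofReal_norm]

theorem res (A : H →L[ℂ] H) (hA : 0 ≤ A) : ∃ R Y : H →L[ℂ] H, 0 ≤ R ∧ (1 + A) * R = 1 ∧
    R * (1 + A) = 1 ∧ IsSelfAdjoint Y ∧ (∀ t, Commute t A → Commute t Y) ∧
    (∀ f, ‖Y f‖ ^ 2 = ‖f‖ ^ 2 - Q R f) ∧ (∀ f, ‖Y f‖ ^ 2 = ‖f - R f‖ ^ 2 + Q A (R f)) ∧
    ∀ f, ‖Y f‖ ^ 2 ≤ Q A f := by
  obtain ⟨R, R0, R1, R2⟩ := inv1 A hA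
  have hf : ∀ f, f = R f + A (R f) := fun f => by
    have := congrArg (fun Z : H →L[ℂ] H => Z f) R1
    simpa using this.symm
  have k1 : ∀ f, ‖f‖ ^ 2 - Q R f = ‖f - R f‖ ^ 2 + Q A (R f) := fun f => by
    have e1 : f - R f = A (R f) := by rw [sub_eq_iff_eq_add']; exact hf f
    have e2 : ‖f‖ ^ 2 - Q R f = (⟪f - R f, f⟫_ℂ).re := by
      rw [inner_sub_left, Complex.sub_re, ← inner_self_eq_norm_sq (𝕜 := ℂ)]; rfl
    have e4 : ⟪A (R f), f⟫_ℂ = ⟪A (R f), R f + A (R f)⟫_ℂ := by rw [← hf f]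
    rw [e2, e1, e4, inner_add_right, Complex.add_re, ← inner_self_eq_norm_sq (𝕜 := ℂ), add_comm]
    rfl
  have h0 : 0 ≤ 1 - R := by
    rw [ContinuousLinearMap.nonneg_iff_isPositive, ContinuousLinearMap.isPositive_def']
    refine ⟨(IsSelfAdjoint.one _).sub R0.isSelfAdjoint, fun f => ?_⟩
    have e2 : (1 - R).reApplyInnerSelf f = ‖f‖ ^ 2 - Q R f := by
      rw [ContinuousLinearMap.reApplyInnerSelf_apply, ContinuousLinearMap.sub_apply,
        inner_sub_left, map_sub, ← inner_self_eq_norm_sq (𝕜 := ℂ)]; rfl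
    rw [e2, k1]
    exact add_nonneg (by positivity) (Q_nonneg hA _)
  have hs : IsSelfAdjoint (CFC.sqrt (1 - R)) := (CFC.sqrt_nonneg _).isSelfAdjoint
  have k2 : ∀ f, ‖CFC.sqrt (1 - R) f‖ ^ 2 = ‖f‖ ^ 2 - Q R f := fun f => by
    rw [← inner_self_eq_norm_sq (𝕜 := ℂ), ← sa hs, ← ContinuousLinearMap.mul_apply,
      CFC.sqrt_mul_sqrt_self _ h0, ContinuousLinearMap.sub_apply, inner_sub_left, map_sub,
      ← inner_self_eq_norm_sq (𝕜 := ℂ)]; rfl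
  refine ⟨R, CFC.sqrt (1 - R), R0, R1, R2, hs, fun t ht => ?_, k2, fun f => (k2 f).trans (k1 f),
    fun f => ?_⟩
  · exact comm_sqrt ((Commute.one_right t).sub_right
      (comm_inv R1 R2 ((Commute.one_right t).add_right ht)))
  · rw [k2, k1]
    have e1 : f - R f = A (R f) := by rw [sub_eq_iff_eq_add']; exact hf f
    have e3 : Q A f = Q A (R f) + 2 * ‖A (R f)‖ ^ 2 + Q A (A (R f)) := by
      conv_lhs => rw [hf f]
      set g := R f
      simp only [Q, map_add, inner_add_left, inner_add_right, Complex.add_re]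
      rw [sa hA.isSelfAdjoint (A g) g, ← inner_self_eq_norm_sq (𝕜 := ℂ)]
      simp only [RCLike.re_to_complex]
      ring
    rw [e1, e3]
    nlinarith [Q_nonneg hA (A (R f)), sq_nonneg ‖A (R f)‖]

theorem conj {A B U : H →L[ℂ] H} (hA : IsSelfAdjoint A) (hB : IsSelfAdjoint B)
    (hU : U * star U = 1) (h : ∀ f, Q B (U f) = Q A f) : B * U = U * A := by
  have : star U * B * U = A := Q_ext (hB.conjugate' U) hA fun f => by
    rw [← h]
    simp only [Q, ContinuousLinearMap.mul_apply, ContinuousLinearMap.star_eq_adjoint,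
      ContinuousLinearMap.adjoint_inner_left]
  rw [← this, ← mul_assoc, ← mul_assoc, hU, one_mul]

theorem app {X Y : H →L[ℂ] H} (h : X = Y) (f : H) : X f = Y f := by rw [h]

theorem main {I : Type} {T : ℤ → H →L[ℂ] H} (hT : Sh T) (D D' : H →L[ℂ] H)
    (hD1 : ∀ f, D (D' f) = f) (hDi : ∀ x y, ⟪D x, D y⟫_ℂ = ⟪x, y⟫_ℂ)
    (hD2 : ∀ f, D' (D f) = f)
    (hDT : ∀ k f, D' (T k f) = T (2 * k) (D' f)) {e : I → H} (he : Gen T e)
    (A C : H →L[ℂ] H) (hA : 0 ≤ A) (hC : 0 ≤ C) (hTA : ∀ k, Commute (T k) A)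
    (hTC : ∀ k, Commute (T k) C) (hB : (A + C) * D = D * A) (ψ : Fin 2 → H)
    (hψ : ∀ f, ENNReal.ofReal (Q C f) = ∑' p : ℤ × Fin 2, ‖⟪T p.1 (ψ p.2), f⟫_ℂ‖ₑ ^ 2)
    (hfin : ∑' i, ENNReal.ofReal (Q A (e i)) ≠ ⊤) (u : Fin 3 → H) (hu : Bes T u)
    (hn : ∀ n, ‖u n‖ = 1) (hlow : ∀ n g, 3 * ‖⟪u n, g⟫_ℂ‖ ^ 2 ≤ Q A g) : False := by
  obtain ⟨R, Y, R0, R1, R2, Ys, Yc, Y1, Y2, Y3⟩ := res A hA
  obtain ⟨S, Z, S0, S1, S2, Zs, -, Z1, -, -⟩ := res (A + C) (add_nonneg hA hC)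
  obtain ⟨X, Xs, X1, Xc⟩ := gmean R1 R2 S1 S2 R0 S0 ((IsSelfAdjoint.one _).add hA.isSelfAdjoint)
  have eC : 1 + (A + C) - (1 + A) = C := by abel
  rw [eC] at X1
  have TX : ∀ k, Commute (T k) X := fun k => Xc _ ((Commute.one_right _).add_right (hTA k))
    ((Commute.one_right _).add_right ((hTA k).add_right (hTC k)))
  have hQ : ∀ f, Q C (X f) = Q R f - Q S f := fun f => by
    have := app X1 f
    simp only [ContinuousLinearMap.mul_apply, ContinuousLinearMap.sub_apply] at this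
    simp only [Q]
    rw [← sa Xs, this, inner_sub_left, Complex.sub_re]
  have hw : ∀ f, ENNReal.ofReal (Q C (X f)) =
      ∑' p : ℤ × Fin 2, ‖⟪T p.1 (X (ψ p.2)), f⟫_ℂ‖ₑ ^ 2 := fun f => by
    rw [hψ]
    refine tsum_congr fun p => ?_
    have := app (TX p.1).eq (ψ p.2)
    simp only [ContinuousLinearMap.mul_apply] at this
    rw [← sa Xs, this]
  have hw1 : ∀ l, ‖X (ψ l)‖ₑ ^ 2 ≤ 1 := fun l => by
    set w := X (ψ l) with hwl
    have h1 : ‖⟪T 0 w, w⟫_ℂ‖ₑ ^ 2 ≤ ENNReal.ofReal (Q C (X w)) := by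
      rw [hw]
      exact ENNReal.le_tsum (f := fun p : ℤ × Fin 2 => ‖⟪T p.1 (X (ψ p.2)), w⟫_ℂ‖ₑ ^ 2) (0, l)
    have h2 : Q C (X w) ≤ ‖w‖ ^ 2 := by
      rw [hQ]
      nlinarith [Y1 w, Q_nonneg S0 w, sq_nonneg ‖Y w‖]
    rw [hT.zero, ← ofReal_norm, ← ENNReal.ofReal_pow (norm_nonneg _),
      ENNReal.ofReal_le_ofReal_iff (Q_nonneg hC _), inner_self_eq_norm_sq_to_K] at h1
    simp only [norm_pow, RCLike.norm_ofReal, abs_norm] at h1
    rw [nsq, ENNReal.ofReal_le_one]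
    nlinarith [sq_nonneg (‖w‖ ^ 2 - 1), sq_nonneg ‖w‖]
  have hΔ : ∑' i, ENNReal.ofReal (Q C (X (e i))) ≤ 2 := by
    simp only [hw]
    rw [swap hT e fun l => X (ψ l)]
    simp only [he _]
    rw [tsum_fintype, Fin.sum_univ_two]
    exact (add_le_add (hw1 0) (hw1 1)).trans one_add_one_eq_two.le
  have hSD : S * D = D * R := by
    have h1 : (1 + (A + C)) * D = D * (1 + A) := by rw [add_mul, hB, mul_add, one_mul, mul_one]
    rw [← mul_one (S * D), ← R1, ← mul_assoc, mul_assoc S, ← h1, ← mul_assoc, S2, one_mul]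
  have nD : ∀ f, ‖D f‖ ^ 2 = ‖f‖ ^ 2 := fun f => by
    rw [← inner_self_eq_norm_sq (𝕜 := ℂ), hDi, inner_self_eq_norm_sq]
  have hZ : ∀ f, ‖Y (D' f)‖ₑ ^ 2 = ‖Y f‖ₑ ^ 2 + ENNReal.ofReal (Q C (X f)) := fun f => by
    rw [nsq, nsq, ← ENNReal.ofReal_add (by positivity) (Q_nonneg hC _), hQ, Y1, Y1]
    congr 1
    have h1 := app hSD (D' f)
    simp only [ContinuousLinearMap.mul_apply, hD1] at h1
    have h2 : Q S f = Q R (D' f) := by
      simp only [Q]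
      rw [h1, ← hDi (R (D' f)), hD1]
    rw [← nD (D' f), hD1, h2]
    ring
  have hT2 : Sh fun k => T (2 * k) :=
    ⟨fun f => by simp [hT.zero], fun m n f => by rw [hT.add, mul_add], fun m => hT.inn _⟩
  have g2 : Gen (fun k => T (2 * k)) fun i => D' (e i) := fun f => by
    have : ‖f‖ₑ ^ 2 = ‖D f‖ₑ ^ 2 := by rw [nsq, nsq, nD]
    rw [this, ← he]
    refine tsum_congr fun p => ?_
    rw [← hDT, ← hDi, hD1]
  have b2 : Bes (fun k => T (2 * k)) fun q : Fin 2 × I => T (q.1 : ℕ) (e q.2) := fun f => by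
    rw [← he f]
    simp only [hT.add]
    refine ENNReal.tsum_comp_le_tsum_of_injective
      (f := fun p : ℤ × (Fin 2 × I) => ((2 * p.1 + (p.2.1 : ℕ), p.2.2) : ℤ × I)) ?_
      fun p : ℤ × I => ‖⟪T p.1 (e p.2), f⟫_ℂ‖ₑ ^ 2
    rintro ⟨a, b, i⟩ ⟨a', b', i'⟩ h
    simp only [Prod.mk.injEq] at h ⊢
    have h1 := b.2
    have h2 := b'.2
    exact ⟨by omega, Fin.ext (by omega), h.2⟩
  have TY : ∀ k, Commute (T k) Y := fun k => Yc _ (hTA k)
  have c2 := cmp hT2 Ys (fun k => TY _) b2 g2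
  set τ := ∑' i, ‖Y (e i)‖ₑ ^ 2 with hτ
  have nT : ∀ k f, ‖Y (T k f)‖ₑ ^ 2 = ‖Y f‖ₑ ^ 2 := fun k f => by
    have := app (TY k).eq f
    simp only [ContinuousLinearMap.mul_apply] at this
    rw [← this, nsq, nsq, ← inner_self_eq_norm_sq (𝕜 := ℂ), hT.inn, inner_self_eq_norm_sq]
  simp only [nT, hZ] at c2
  rw [ENNReal.tsum_prod', tsum_fintype, Fin.sum_univ_two, ENNReal.tsum_add] at c2
  have τf : τ ≠ ⊤ := ne_top_of_le_ne_top hfin (ENNReal.tsum_le_tsum fun i => by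
    rw [nsq]; exact ENNReal.ofReal_le_ofReal (Y3 _))
  have τ2 : τ ≤ 2 := ((ENNReal.add_le_add_iff_left τf).mp c2).trans hΔ
  have c3 := (cmp hT Ys TY hu he).trans τ2
  have lo : ∀ n, 3 / 4 ≤ ‖Y (u n)‖ ^ 2 := fun n => by
    rw [Y2]
    have h1 := hlow n (R (u n))
    have h2 := norm_inner_le_norm (𝕜 := ℂ) (u n) (u n - R (u n))
    rw [inner_sub_right, inner_self_eq_norm_sq_to_K, hn] at h2
    have h3 := norm_sub_norm_le (((1 : ℝ) : ℂ) ^ 2) ⟪u n, R (u n)⟫_ℂ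
    have h4 : 1 - ‖⟪u n, R (u n)⟫_ℂ‖ ≤ ‖u n - R (u n)‖ := by
      simp only [Complex.ofReal_one, one_pow, norm_one, one_mul, Complex.coe_algebraMap] at h2 h3
      linarith
    set z := ‖⟪u n, R (u n)⟫_ℂ‖
    set y := ‖u n - R (u n)‖
    have y0 : 0 ≤ y := norm_nonneg _
    have z0 : 0 ≤ z := norm_nonneg _
    nlinarith [sq_nonneg (y - 3 / 4), sq_nonneg (z - 1 / 4)]
  rw [tsum_fintype, Fin.sum_univ_three, nsq, nsq, nsq, ← ENNReal.ofReal_add (by positivity)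
    (by positivity), ← ENNReal.ofReal_add (by positivity) (by positivity),
    ENNReal.ofReal_le_ofNat] at c3
  linarith [lo 0, lo 1, lo 2]

theorem main2 {I : Type} {T : ℤ → H →L[ℂ] H} (hT : Sh T) (D D' : H →L[ℂ] H)
    (hD1 : ∀ f, D (D' f) = f) (hDi : ∀ x y, ⟪D x, D y⟫_ℂ = ⟪x, y⟫_ℂ)
    (hD2 : ∀ f, D' (D f) = f)
    (hDT : ∀ k f, D' (T k f) = T (2 * k) (D' f)) {e : I → H} (he : Gen T e)
    (w : ℤ → ℤ × Fin 2 → H) (K : ℝ) (hK : 0 ≤ K)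
    (hw : ∀ f, ∑' j, ∑' p, ‖⟪w j p, f⟫_ℂ‖ₑ ^ 2 = ENNReal.ofReal (K ^ 2 * ‖f‖ ^ 2))
    (ha : ∀ (j : ℕ) m k l, T m (w j (k, l)) = w j (k + 2 ^ j * m, l))
    (hb : ∀ j p, D (w j p) = w (j + 1) p)
    (hfin : ∑' q : ℕ × ℤ × Fin 2, ∑' i, ‖⟪w (-(q.1 + 1)) q.2, e i⟫_ℂ‖ₑ ^ 2 ≠ ⊤)
    (u : Fin 3 → H) (hu : Bes T u) (hn : ∀ n, ‖u n‖ = 1)
    (hl : ∀ n : Fin 3, w (-((n : ℕ) + 1)) (0, 0) = (2 : ℂ) • u n) : False := by
  set F : ℤ → H → ℝ≥0∞ := fun j f => ∑' p, ‖⟪w j p, f⟫_ℂ‖ₑ ^ 2 with hF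
  have sp : ∀ f, ∑' n : ℕ, F n f + ∑' n : ℕ, F (-(n + 1)) f =
      ENNReal.ofReal (K ^ 2 * ‖f‖ ^ 2) := fun f => by
    rw [← hw f]
    exact (tsum_of_nat_of_neg_add_one (f := fun j => F j f) ENNReal.summable
      ENNReal.summable).symm
  obtain ⟨A, hA, A1⟩ := frame (fun q : ℕ × ℤ × Fin 2 => w (-(q.1 + 1)) q.2) K hK fun f => by
    rw [← sp, ENNReal.tsum_prod']
    exact le_add_self
  obtain ⟨C, hC, C1⟩ := frame (w 0) K hK fun f => by
    rw [← hw]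
    exact ENNReal.le_tsum (f := fun j => F j f) 0
  have A2 : ∀ f, ENNReal.ofReal (Q A f) = ∑' n : ℕ, F (-(n + 1)) f := fun f => by
    rw [A1, ENNReal.tsum_prod']
  have FT : ∀ (j : ℕ) m f, F j (T m f) = F j f := fun j m f => by
    simp only [hF]
    rw [← ((Equiv.addRight (2 ^ j * m)).prodCongr (Equiv.refl (Fin 2))).tsum_eq]
    refine tsum_congr fun p => ?_
    rw [← hT.inn m (w j p), ha]
    rfl
  have FD : ∀ j f, F (j + 1) (D f) = F j f := fun j f => by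
    simp only [hF, ← hb, hDi]
  have nT : ∀ k f, ‖T k f‖ ^ 2 = ‖f‖ ^ 2 := fun k f => by
    rw [← inner_self_eq_norm_sq (𝕜 := ℂ), hT.inn, inner_self_eq_norm_sq]
  have uT : ∀ m, T m * star (T m) = 1 := fun m => by
    have : T (-m) = star (T m) := by
      rw [ContinuousLinearMap.star_eq_adjoint, ContinuousLinearMap.eq_adjoint_iff]
      intro x y
      rw [hT.adj, neg_neg]
    ext f
    rw [← this, ContinuousLinearMap.mul_apply, hT.add, add_neg_cancel, hT.zero]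
    rfl
  have uD : D * star D = 1 := by
    have : D' = star D := by
      rw [ContinuousLinearMap.star_eq_adjoint, ContinuousLinearMap.eq_adjoint_iff]
      intro x y
      rw [← hDi, hD1]
    ext f
    rw [← this, ContinuousLinearMap.mul_apply, hD1]
    rfl
  have inj : ∀ {a b : ℝ}, 0 ≤ a → 0 ≤ b → ENNReal.ofReal a = ENNReal.ofReal b → a = b :=
    fun ha hb h => (ENNReal.ofReal_eq_ofReal_iff ha hb).mp h
  refine main hT D D' hD1 hDi hD2 hDT he A C hA hC (fun m => ?_) (fun m => ?_) ?_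
    (fun l => w 0 (0, l)) (fun f => ?_) ?_ u hu hn fun n g => ?_
  · refine (conj hA.isSelfAdjoint hA.isSelfAdjoint (uT m) fun f => ?_).symm
    refine inj (Q_nonneg hA _) (Q_nonneg hA _) ?_
    have h1 := sp (T m f)
    rw [nT, ← sp f] at h1
    simp only [FT] at h1
    rw [A2, A2]
    refine (ENNReal.add_right_inj ?_).mp h1
    exact ne_top_of_le_ne_top ENNReal.ofReal_ne_top (by rw [← sp f]; exact le_self_add)
  · refine (conj hC.isSelfAdjoint hC.isSelfAdjoint (uT m) fun f => ?_).symm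
    refine inj (Q_nonneg hC _) (Q_nonneg hC _) ?_
    rw [C1, C1]
    exact FT 0 m f
  · refine conj hA.isSelfAdjoint (add_nonneg hA hC).isSelfAdjoint uD fun f => ?_
    refine inj (Q_nonneg (add_nonneg hA hC) _) (Q_nonneg hA _) ?_
    have h1 : Q (A + C) (D f) = Q A (D f) + Q C (D f) := by
      simp only [Q, ContinuousLinearMap.add_apply, inner_add_left, Complex.add_re]
    rw [h1, ENNReal.ofReal_add (Q_nonneg hA _) (Q_nonneg hC _), A2, A2, C1,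
      tsum_eq_zero_add' (f := fun n : ℕ => F (-(n + 1)) f) ENNReal.summable, add_comm]
    congr 1
    · rw [← FD]
      simp [hF]
    · refine tsum_congr fun n => ?_
      rw [← FD _ f]
      exact congrArg (fun j => F j (D f)) (by push_cast; ring)
  · rw [C1]
    refine tsum_congr fun p => ?_
    have := ha 0 p.1 0 p.2
    simp only [Nat.cast_zero, pow_zero, one_mul, zero_add] at this
    rw [this]
  · simp only [A1]
    rwa [ENNReal.tsum_comm]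
  · have h1 : ‖⟪w (-((n : ℕ) + 1)) (0, 0), g⟫_ℂ‖ₑ ^ 2 ≤ ENNReal.ofReal (Q A g) := by
      rw [A1]
      exact ENNReal.le_tsum (f := fun q : ℕ × ℤ × Fin 2 => ‖⟪w (-(q.1 + 1)) q.2, g⟫_ℂ‖ₑ ^ 2)
        (n, 0, 0)
    rw [hl, ← ofReal_norm, ← ENNReal.ofReal_pow (norm_nonneg _),
      ENNReal.ofReal_le_ofReal_iff (Q_nonneg hA _), inner_smul_left, norm_mul] at h1
    simp only [RCLike.norm_conj, Complex.norm_ofNat] at h1
    nlinarith [sq_nonneg ‖⟪u n, g⟫_ℂ‖]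

end Pool.Agent.H.MP_c46510_an
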