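import Pool.Agent.H.MP_c46510_an.A

set_option autoImplicit false

namespace Pool.Agent.H.MP_c46510_an
open scoped ENNReal InnerProductSpace
open MeasureTheory Set

noncomputable abbrev L := Lp ℂ 2 (volume : Measure ℝ)

theorem el (f : ℝ → ℂ) : eLpNorm f 2 volume ^ 2 = ∫⁻ t, ‖f t‖ₑ ^ 2 := by
  have := eLpNorm_nnreal_pow_eq_lintegral (f := f) (μ := volume) (p := 2) (by norm_num)
  simpa using this

theorem cv (a b : ℝ) (ha : 0 < a) (g : ℝ → ℝ≥0∞) :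
    ∫⁻ t, ENNReal.ofReal a * g (a * t - b) = ∫⁻ t, g t := by
  rw [lintegral_const_mul' _ _ ENNReal.ofReal_ne_top]
  have h1 := lintegral_map_equiv (μ := volume) (fun s => g (s - b))
    (Homeomorph.mulLeft₀ a ha.ne').toMeasurableEquiv
  have h2 : Measure.map (Homeomorph.mulLeft₀ a ha.ne').toMeasurableEquiv volume =
      ENNReal.ofReal |a⁻¹| • volume := Real.map_volume_mul_left ha.ne'
  rw [h2, lintegral_smul_measure, lintegral_sub_right_eq_self] at h1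
  have h3 : ∫⁻ t, g (a * t - b) = ENNReal.ofReal |a⁻¹| • ∫⁻ t, g t := h1.symm
  rw [h3, smul_eq_mul, ← mul_assoc, ← ENNReal.ofReal_mul ha.le, abs_of_pos (inv_pos.mpr ha),
    mul_inv_cancel₀ ha.ne', ENNReal.ofReal_one, one_mul]

theorem qmp (a b : ℝ) (ha : 0 < a) :
    Measure.QuasiMeasurePreserving (fun t : ℝ => a * t - b) volume volume :=
  (measurePreserving_sub_right volume b).quasiMeasurePreserving.comp
    (Measure.quasiMeasurePreserving_smul volume ha.ne')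

noncomputable def wf (j : ℤ) (b : ℝ) (f : ℝ → ℂ) : ℝ → ℂ :=
  fun x => ((Real.sqrt 2 ^ j : ℝ) : ℂ) * f ((2 : ℝ) ^ j * x - b)

theorem p2 (j : ℤ) : (0 : ℝ) < 2 ^ j := by positivity

theorem wf_en (j : ℤ) (b : ℝ) (f : ℝ → ℂ) (x : ℝ) :
    ‖wf j b f x‖ₑ ^ 2 = ENNReal.ofReal (2 ^ j) * ‖f (2 ^ j * x - b)‖ₑ ^ 2 := by
  rw [wf, enorm_mul, mul_pow]
  congr 1
  rw [← ofReal_norm, ← ENNReal.ofReal_pow (norm_nonneg _), Complex.norm_real, Real.norm_eq_abs,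
    sq_abs, sq, ← mul_zpow, Real.mul_self_sqrt (by norm_num)]

theorem wf_norm (j : ℤ) (b : ℝ) (f : ℝ → ℂ) : eLpNorm (wf j b f) 2 volume = eLpNorm f 2 volume := by
  have : eLpNorm (wf j b f) 2 volume ^ 2 = eLpNorm f 2 volume ^ 2 := by
    rw [el, el]
    simp only [wf_en]
    exact cv _ b (p2 j) fun t => ‖f t‖ₑ ^ 2
  exact (ENNReal.pow_right_strictMono two_ne_zero).injective this

theorem wf_mem (j : ℤ) (b : ℝ) {f : ℝ → ℂ} (hf : MemLp f 2 volume) : MemLp (wf j b f) 2 volume :=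
  ⟨(hf.1.comp_quasiMeasurePreserving (qmp _ b (p2 j))).const_mul _, by rw [wf_norm]; exact hf.2⟩

theorem wf_ae (j : ℤ) (b : ℝ) {f g : ℝ → ℂ} (h : f =ᵐ[volume] g) : wf j b f =ᵐ[volume] wf j b g := by
  filter_upwards [(qmp _ b (p2 j)).ae h] with x hx
  simp only [wf, hx]

theorem wf_wf (j j' : ℤ) (b b' : ℝ) (f : ℝ → ℂ) :
    wf j b (wf j' b' f) = wf (j + j') (2 ^ j' * b + b') f := by
  funext x
  simp only [wf]
  rw [zpow_add₀ (by positivity), zpow_add₀ (by positivity)]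
  push_cast
  rw [mul_assoc]
  congr 3
  ring

noncomputable def Wi (j : ℤ) (b : ℝ) : L →ₗᵢ[ℂ] L where
  toFun f := (wf_mem j b (Lp.memLp f)).toLp _
  map_add' f g := by
    rw [← MemLp.toLp_add]
    refine MemLp.toLp_congr _ _ ((wf_ae j b (Lp.coeFn_add f g)).trans (.of_forall fun x => ?_))
    simp only [wf, Pi.add_apply, mul_add]
  map_smul' c f := by
    rw [← MemLp.toLp_const_smul]
    refine MemLp.toLp_congr _ _ ((wf_ae j b (Lp.coeFn_smul c f)).trans (.of_forall fun x => ?_))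
    simp only [wf, Pi.smul_apply, smul_eq_mul, RingHom.id_apply]
    ring
  norm_map' f := by
    show ‖(wf_mem j b (Lp.memLp f)).toLp _‖ = _
    rw [Lp.norm_toLp, wf_norm, Lp.norm_def]

noncomputable def W (j : ℤ) (b : ℝ) : L →L[ℂ] L := (Wi j b).toContinuousLinearMap

theorem W_ae (j : ℤ) (b : ℝ) (f : L) : W j b f =ᵐ[volume] wf j b f :=
  (wf_mem j b (Lp.memLp f)).coeFn_toLp

theorem W_inn (j : ℤ) (b : ℝ) (f g : L) : ⟪W j b f, W j b g⟫_ℂ = ⟪f, g⟫_ℂ :=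
  (Wi j b).inner_map_map f g

theorem W_norm (j : ℤ) (b : ℝ) (f : L) : ‖W j b f‖ = ‖f‖ := (Wi j b).norm_map f

theorem W_W (j j' : ℤ) (b b' : ℝ) (f : L) {i : ℤ} {c : ℝ} (hi : i = j + j')
    (hc : c = 2 ^ j' * b + b') : W j b (W j' b' f) = W i c f := by
  subst hi hc
  refine Lp.ext ((W_ae _ _ _).trans ((wf_ae _ _ (W_ae _ _ _)).trans ?_))
  rw [wf_wf]
  exact (W_ae _ _ _).symm

theorem W_zero (f : L) : W 0 0 f = f := by
  refine Lp.ext ((W_ae _ _ _).trans (.of_forall fun x => ?_))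
  simp [wf]

theorem shT : Sh fun k : ℤ => W 0 k :=
  ⟨fun f => by simpa using W_zero f, fun m n f => W_W _ _ _ _ _ rfl (by simp),
    fun m => W_inn _ _⟩

noncomputable def P (f : L) : L := ((Lp.memLp f).indicator (s := Ico 1 2) measurableSet_Ico).toLp _

theorem P_ae (f : L) : P f =ᵐ[volume] (Ico 1 2).indicator f := MemLp.coeFn_toLp _

theorem P_inn (f g : L) : ⟪P f, g⟫_ℂ = ⟪f, P g⟫_ℂ := by
  rw [L2.inner_def, L2.inner_def]
  refine integral_congr_ae ?_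
  filter_upwards [P_ae f, P_ae g] with x h1 h2
  rw [h1, h2]
  by_cases hx : x ∈ Ico (1 : ℝ) 2 <;> simp [hx]

theorem P_W (j : ℤ) (b : ℝ) (f : L) :
    ‖P (W j b f)‖ₑ ^ 2 = ∫⁻ t in Ico (2 ^ j - b) (2 * 2 ^ j - b), ‖f t‖ₑ ^ 2 := by
  rw [Lp.enorm_def, el, ← lintegral_indicator measurableSet_Ico,
    ← cv _ b (p2 j) (indicator _ _)]
  refine lintegral_congr_ae ?_
  filter_upwards [P_ae (W j b f), W_ae j b f] with x h1 h2
  rw [h1]
  have hp := p2 j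
  by_cases hx : x ∈ Ico (1 : ℝ) 2
  · rw [indicator_of_mem hx, indicator_of_mem, h2, wf_en]
    constructor <;> nlinarith [hx.1, hx.2]
  · rw [indicator_of_notMem hx, indicator_of_notMem]
    · simp
    · intro h
      exact hx ⟨by nlinarith [h.1], by nlinarith [h.2]⟩

theorem pars {I : Type} (b : HilbertBasis I ℂ L) (x : L) :
    ∑' i, ‖⟪b i, x⟫_ℂ‖ₑ ^ 2 = ‖x‖ₑ ^ 2 := by
  have h := Complex.reCLM.hasSum (b.hasSum_inner_mul_inner x x)
  have e : ∀ i, Complex.reCLM (⟪x, b i⟫_ℂ * ⟪b i, x⟫_ℂ) = ‖⟪b i, x⟫_ℂ‖ ^ 2 := fun i => by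
    rw [← inner_conj_symm x, Complex.conj_mul']
    simp only [Complex.reCLM_apply, ← Complex.ofReal_pow, Complex.ofReal_re]
  simp only [e] at h
  have e2 : Complex.reCLM ⟪x, x⟫_ℂ = ‖x‖ ^ 2 := inner_self_eq_norm_sq (𝕜 := ℂ) x
  rw [nsq, ← e2, ← h.tsum_eq, ENNReal.ofReal_tsum_of_nonneg (fun _ => by positivity) h.summable]
  refine tsum_congr fun i => ?_
  rw [ENNReal.ofReal_pow (norm_nonneg _), ofReal_norm]

theorem genT {I : Type} (b : HilbertBasis I ℂ L) : Gen (fun k : ℤ => W 0 k) fun i => P (b i) := by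
  intro f
  rw [ENNReal.tsum_prod']
  simp only [shT.adj, P_inn, pars, P_W]
  rw [← lintegral_iUnion (fun _ => measurableSet_Ico), Lp.enorm_def, el]
  · rw [eq_univ_of_forall (s := ⋃ _, _), Measure.restrict_univ]
    intro t
    refine mem_iUnion.mpr ⟨⌊t⌋ - 1, ?_, ?_⟩ <;> push_cast
    · linarith [Int.floor_le t]
    · linarith [Int.lt_floor_add_one t]
  · intro k k' hk
    refine disjoint_left.mpr fun t h1 h2 => hk ?_
    simp only [zpow_zero, Int.cast_neg, mem_Ico] at h1 h2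
    have a1 : (k : ℝ) < k' + 1 := by linarith
    have a2 : (k' : ℝ) < k + 1 := by linarith
    norm_cast at a1 a2
    omega

theorem fin1 (f : L) : ∑' q : ℕ × ℤ, ‖P (W (-(q.1 + 1)) q.2 f)‖ₑ ^ 2 ≤ ‖f‖ₑ ^ 2 := by
  simp only [P_W]
  rw [← lintegral_iUnion (fun _ => measurableSet_Ico), Lp.enorm_def, el]
  · exact setLIntegral_le_lintegral _ _
  · have k1 : ∀ n : ℕ, 2 * (2 : ℝ) ^ (-(n + 1 : ℤ)) ≤ 1 := fun n => by
      rw [← zpow_one_add₀ two_ne_zero]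
      exact zpow_le_one_of_nonpos₀ one_le_two (by omega)
    have k2 : ∀ n m : ℕ, n < m → 2 * (2 : ℝ) ^ (-(m + 1 : ℤ)) ≤ 2 ^ (-(n + 1 : ℤ)) := fun n m h => by
      rw [← zpow_one_add₀ two_ne_zero]
      exact zpow_le_zpow_right₀ one_le_two (by omega)
    rintro ⟨n, k⟩ ⟨n', k'⟩ hk
    refine disjoint_left.mpr fun t h1 h2 => hk ?_
    simp only [mem_Ico] at h1 h2
    have a1 : (k : ℝ) < k' + 1 := by linarith [k1 n, p2 (-(n' + 1 : ℤ))]
    have a2 : (k' : ℝ) < k + 1 := by linarith [k1 n', p2 (-(n + 1 : ℤ))]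
    have a3 : k = k' := by
      norm_cast at a1 a2
      omega
    subst a3
    rcases lt_trichotomy n n' with h | h | h
    · linarith [k2 _ _ h]
    · rw [h]
    · linarith [k2 _ _ h]

theorem noext (v : L) (hv : Orthonormal ℂ fun p : ℤ × ℤ => W p.1 p.2 v) (ψ : Fin 2 → L)
    (h0 : ψ 0 = (1 / 2 : ℂ) • W 3 0 v)
    (h : ∀ f : L, HasSum (fun p : ℤ × ℤ => ‖⟪W p.1 p.2 (ψ 0), f⟫_ℂ‖ ^ 2 +
      ‖⟪W p.1 p.2 (ψ 1), f⟫_ℂ‖ ^ 2) (‖f‖ ^ 2)) : False := by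
  obtain ⟨s, b, -⟩ := exists_hilbertBasis ℂ L
  have e : ∀ z : ℂ, ‖z‖ₑ ^ 2 = ENNReal.ofReal (‖z‖ ^ 2) := fun z => by
    rw [ENNReal.ofReal_pow (norm_nonneg _), ofReal_norm]
  refine main2 shT (W 1 0) (W (-1) 0) (fun f => ?_) (W_inn _ _) (fun f => ?_) (fun k f => ?_)
    (genT b) (fun j p => W j p.1 ((4 : ℂ) • ψ p.2)) 4 (by norm_num) (fun f => ?_)
    (fun j m k l => ?_) (fun j p => ?_) ?_ (fun n => W (2 - (n : ℕ)) 0 v) (fun f => ?_)
    (fun n => ?_) fun n => ?_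
  · exact (W_W _ _ _ _ _ (by simp) (by simp)).trans (W_zero f)
  · exact (W_W _ _ _ _ _ (by simp) (by simp)).trans (W_zero f)
  · exact (W_W _ _ _ _ _ (i := -1) (c := k) (by simp) (by simp)).trans
      (W_W _ _ _ _ _ (by simp) (by simp)).symm
  · have h2 := (h f).mul_left (4 ^ 2)
    rw [← h2.tsum_eq, ENNReal.ofReal_tsum_of_nonneg (fun _ => by positivity) h2.summable,
      ENNReal.tsum_prod']
    refine tsum_congr fun j => ?_
    rw [ENNReal.tsum_prod']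
    refine tsum_congr fun k => ?_
    rw [tsum_fintype, Fin.sum_univ_two, e, e, ← ENNReal.ofReal_add (by positivity) (by positivity)]
    simp only [map_smul, inner_smul_left, norm_mul, RCLike.norm_conj, Complex.norm_ofNat]
    congr 1
    ring
  · exact W_W _ _ _ _ _ (by simp) (by simp [add_comm])
  · exact W_W _ _ _ _ _ (by simp [add_comm]) (by simp)
  · simp only [en (W _ _ _), P_inn, pars]
    have h1 : ∑' q : ℕ × ℤ × Fin 2, ‖P (W (-(q.1 + 1)) q.2.1 ((4 : ℂ) • ψ q.2.2))‖ₑ ^ 2 =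
        ∑' l : Fin 2, ∑' q : ℕ × ℤ, ‖P (W (-(q.1 + 1)) q.2 ((4 : ℂ) • ψ l))‖ₑ ^ 2 := by
      rw [ENNReal.tsum_comm, ← (Equiv.prodAssoc ℕ ℤ (Fin 2)).tsum_eq, ENNReal.tsum_prod']
      rfl
    rw [h1, tsum_fintype, Fin.sum_univ_two]
    exact ne_top_of_le_ne_top (by simp) (add_le_add (fin1 _) (fin1 _))
  · have h1 : ∀ p : ℤ × Fin 3, W 0 p.1 (W (2 - (p.2 : ℕ)) 0 v) =
        W ((2 - (p.2 : ℕ) : ℤ)) ((2 ^ (2 - (p.2 : ℕ)) * p.1 : ℤ)) v := fun p =>
      W_W _ _ _ _ _ (by simp) (by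
        obtain ⟨k, n⟩ := p
        fin_cases n <;> simp <;> norm_num)
    simp only [h1]
    have h2 := hv.comp (fun p : ℤ × Fin 3 =>
      (((2 - (p.2 : ℕ) : ℤ), (2 ^ (2 - (p.2 : ℕ)) * p.1 : ℤ)) : ℤ × ℤ)) (by
        rintro ⟨k, n⟩ ⟨k', n'⟩ hh
        simp only [Prod.mk.injEq] at hh ⊢
        have : n = n' := Fin.ext (by omega)
        subst this
        exact ⟨mul_left_cancel₀ (by positivity) hh.2, rfl⟩)
    rw [nsq]
    simp only [e]
    exact (ENNReal.ofReal_tsum_of_nonneg (fun _ => by positivity)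
      (h2.inner_products_summable f)).symm.le.trans
      (ENNReal.ofReal_le_ofReal (h2.tsum_inner_products_le f))
  · rw [W_norm, ← W_norm 0 (0 : ℤ) v]
    exact hv.1 (0, 0)
  · simp only [h0, smul_smul, map_smul]
    rw [W_W _ _ _ _ _ (i := 2 - (n : ℕ)) (c := 0) (by ring) (by simp)]
    norm_num

noncomputable def hr (x : ℝ) : ℂ :=
  (Ico (0 : ℝ) (1 / 2)).indicator (fun _ => (1 : ℂ)) x - (Ico (1 / 2 : ℝ) 1).indicator (fun _ => 1) x

theorem ind_mem (a b : ℝ) (p : ℝ≥0∞) : MemLp ((Ico a b).indicator fun _ => (1 : ℂ)) p volume :=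
  memLp_indicator_const p measurableSet_Ico 1 (Or.inr (by simp))

theorem hr_mem : MemLp hr 2 volume := (ind_mem _ _ 2).sub (ind_mem _ _ 2)

theorem hr_int : ∫ x, hr x = 0 := by
  unfold hr
  rw [integral_sub (memLp_one_iff_integrable.mp (ind_mem _ _ 1))
    (memLp_one_iff_integrable.mp (ind_mem _ _ 1)), integral_indicator_const _ measurableSet_Ico,
    integral_indicator_const _ measurableSet_Ico]
  simp only [Real.volume_real_Ico]
  norm_num

theorem hr_eq (x : ℝ) :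
    hr x = if 0 ≤ x then if 1 / 2 ≤ x then if 1 ≤ x then 0 else -1 else 1 else 0 := by
  simp only [hr, indicator, mem_Ico]
  split_ifs <;> first | (exfalso; grind) | norm_num

theorem hr_supp {x : ℝ} (h : hr x ≠ 0) : 0 ≤ x ∧ x < 1 := by
  rw [hr_eq] at h
  split_ifs at h <;> first | exact absurd rfl h | (constructor <;> linarith)

theorem hr_sq : ∫⁻ x, ‖hr x‖ₑ ^ 2 = 1 := by
  have : ∀ x, ‖hr x‖ₑ ^ 2 = (Ico (0 : ℝ) 1).indicator (fun _ => (1 : ℝ≥0∞)) x := fun x => by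
    rw [hr_eq]
    simp only [indicator, mem_Ico]
    split_ifs <;> first | (exfalso; grind) | simp
  simp only [this]
  rw [lintegral_indicator measurableSet_Ico]
  simp

theorem hr_const (N : ℕ) (hN : 0 < N) (m : ℤ) {x y : ℝ} (hx : m ≤ 2 * N * x ∧ 2 * N * x < m + 1)
    (hy : m ≤ 2 * N * y ∧ 2 * N * y < m + 1) : hr x = hr y := by
  have hN' : (0 : ℝ) < N := by exact_mod_cast hN
  have key : ∀ (c : ℕ) (z : ℝ), (m ≤ 2 * N * z ∧ 2 * N * z < m + 1) →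
      ((c : ℝ) / 2 ≤ z ↔ (c * N : ℤ) ≤ m) := by
    intro c z hz
    constructor
    · intro h
      have : ((c * N : ℤ) : ℝ) < m + 1 := by push_cast; nlinarith [hz.2]
      norm_cast at this
      omega
    · intro h
      have : ((c * N : ℤ) : ℝ) ≤ m := by exact_mod_cast h
      push_cast at this
      by_contra hc
      nlinarith [hz.1]
  have a0 := (key 0 x hx).trans (key 0 y hy).symm
  have a1 := (key 1 x hx).trans (key 1 y hy).symm
  have a2 := (key 2 x hx).trans (key 2 y hy).symm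
  norm_num at a0 a1 a2
  simp only [hr_eq, a0, a1, a2]

theorem hr_orth (d : ℕ) (m : ℤ) (h : d ≠ 0 ∨ m ≠ 0) :
    ∫ x, wf d m hr x * (starRingEnd ℂ) (hr x) = 0 := by
  rcases Nat.eq_zero_or_pos d with rfl | hd
  · have hm : m ≠ 0 := by simpa using h
    refine integral_eq_zero_of_ae (.of_forall fun x => ?_)
    by_contra hc
    have h1 : hr x ≠ 0 := fun h0 => hc (by simp [h0])
    have h2 : hr (x - m) ≠ 0 := fun h0 => hc (by simp [wf, h0])
    have a1 : (m : ℝ) < 1 := by linarith [(hr_supp h1).2, (hr_supp h2).1]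
    have a2 : (-1 : ℝ) < m := by linarith [(hr_supp h1).1, (hr_supp h2).2]
    norm_cast at a1 a2
    omega
  · obtain ⟨d, rfl⟩ : ∃ e, d = e + 1 := ⟨d - 1, by omega⟩
    have e2 : (2 : ℝ) ^ ((d + 1 : ℕ) : ℤ) = 2 * ((2 ^ d : ℕ) : ℝ) := by
      rw [zpow_natCast, pow_succ']
      push_cast
      rfl
    have hp : (0 : ℝ) < 2 * ((2 ^ d : ℕ) : ℝ) := by positivity
    have : ∀ x, wf (d + 1 : ℕ) m hr x * (starRingEnd ℂ) (hr x) =
        (((Real.sqrt 2 ^ ((d + 1 : ℕ) : ℤ) : ℝ) : ℂ) *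
          (starRingEnd ℂ) (hr (m / (2 * ((2 ^ d : ℕ) : ℝ))))) *
          hr (2 * ((2 ^ d : ℕ) : ℝ) * x - m) := fun x => by
      rw [wf, e2]
      by_cases h0 : hr (2 * ((2 ^ d : ℕ) : ℝ) * x - m) = 0
      · simp only [h0, mul_zero, zero_mul]
      · rw [hr_const (2 ^ d) (by positivity) m (x := x) (y := m / (2 * ((2 ^ d : ℕ) : ℝ)))
          ⟨by linarith [(hr_supp h0).1], by linarith [(hr_supp h0).2]⟩
          (by rw [mul_div_cancel₀ _ hp.ne']; constructor <;> linarith)]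
        ring
    simp only [this]
    rw [integral_const_mul, Measure.integral_comp_mul_left (fun s => hr (s - m)),
      integral_sub_right_eq_self, hr_int]
    simp

theorem haar : Orthonormal ℂ fun p : ℤ × ℤ => W p.1 p.2 (hr_mem.toLp hr) := by
  have key : ∀ p q : ℤ × ℤ, p ≠ q → p.1 ≤ q.1 →
      ⟪W p.1 p.2 (hr_mem.toLp hr), W q.1 q.2 (hr_mem.toLp hr)⟫_ℂ = 0 := by
    rintro ⟨j, k⟩ ⟨j', k'⟩ hne hle
    obtain ⟨d, rfl⟩ := Int.le.dest hle
    rw [← W_W j d k (k' - 2 ^ d * k : ℤ) _ rfl (by simp), W_inn, L2.inner_def,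
      ← hr_orth d (k' - 2 ^ d * k) ?_]
    · refine integral_congr_ae ?_
      filter_upwards [hr_mem.coeFn_toLp, (W_ae d (k' - 2 ^ d * k : ℤ) _).trans
        (wf_ae _ _ hr_mem.coeFn_toLp)] with x h1 h2
      rw [h1, h2, RCLike.inner_apply]
    · by_contra hc
      push Not at hc
      obtain ⟨rfl, h2⟩ := hc
      apply hne
      simp only [pow_zero, one_mul] at h2
      simp [show k' = k by omega]
  refine ⟨fun p => ?_, fun p q hne => ?_⟩
  · have h1 : eLpNorm hr 2 volume = 1 :=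
      (ENNReal.pow_right_strictMono two_ne_zero).injective (by simp only [el, hr_sq, one_pow])
    rw [W_norm, Lp.norm_toLp, h1, ENNReal.toReal_one]
  · rcases le_total p.1 q.1 with h | h
    · exact key p q hne h
    · exact inner_eq_zero_symm.mp (key q p hne.symm h)

theorem br (j k : ℤ) {f ψ : ℝ → ℂ} (hf : MemLp f 2 volume) (hψ : MemLp ψ 2 volume) :
    ∫ x : ℝ, f x * (starRingEnd ℂ) (((Real.sqrt 2 ^ j : ℝ) : ℂ) * ψ ((2 : ℝ) ^ j * x - (k : ℝ))) =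
      ⟪W j k (hψ.toLp ψ), hf.toLp f⟫_ℂ := by
  rw [L2.inner_def]
  refine integral_congr_ae ?_
  filter_upwards [hf.coeFn_toLp, (W_ae j k _).trans (wf_ae _ _ hψ.coeFn_toLp)] with x h1 h2
  rw [h1, h2, RCLike.inner_apply]
  rfl

theorem bn {f : ℝ → ℂ} (hf : MemLp f 2 volume) : ∫ x : ℝ, ‖f x‖ ^ 2 = ‖hf.toLp f‖ ^ 2 := by
  rw [← inner_self_eq_norm_sq (𝕜 := ℂ), L2.inner_def, ← integral_re (L2.integrable_inner _ _)]
  refine integral_congr_ae ?_
  filter_upwards [hf.coeFn_toLp] with x h1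
  rw [h1, inner_self_eq_norm_sq]

theorem final : ∃ ψ : L, (∀ f : L, ∀ S : Finset (ℤ × ℤ),
      ∑ p ∈ S, ‖⟪W p.1 p.2 ψ, f⟫_ℂ‖ ^ 2 ≤ 1 / 4 * ‖f‖ ^ 2) ∧
    ∀ ψ' : L, ¬ ∀ f : L, HasSum (fun p : ℤ × ℤ => ‖⟪W p.1 p.2 ψ, f⟫_ℂ‖ ^ 2 +
      ‖⟪W p.1 p.2 ψ', f⟫_ℂ‖ ^ 2) (‖f‖ ^ 2) := by
  refine ⟨(1 / 2 : ℂ) • W 3 0 (hr_mem.toLp hr), fun f S => ?_, fun ψ' h =>
    noext _ haar ![(1 / 2 : ℂ) • W 3 0 (hr_mem.toLp hr), ψ'] rfl h⟩
  have h2 := haar.comp (fun p : ℤ × ℤ => ((p.1 + 3, 8 * p.2) : ℤ × ℤ)) (by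
    rintro ⟨k, n⟩ ⟨k', n'⟩ hh
    simp only [Prod.mk.injEq] at hh ⊢
    omega)
  refine le_trans (le_of_eq ?_) (mul_le_mul_of_nonneg_left (h2.sum_inner_products_le (s := S) f)
    (by norm_num))
  rw [Finset.mul_sum]
  refine Finset.sum_congr rfl fun p _ => ?_
  rw [map_smul, W_W _ _ _ _ _ (i := p.1 + 3) (c := (8 * p.2 : ℤ)) rfl (by push_cast; norm_num),
    inner_smul_left, norm_mul, mul_pow]
  norm_num

end Pool.Agent.H.MP_c46510_an
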